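import Pool.Agent.W831.HI.Loops

set_option autoImplicit false

/-!
Circuit covers of weightings that differ from a constant by a sum of circuits: if `B` is even and
at least twice the total multiplicity of the circuits (odd multiplicities count for one more), then
the constant `B` minus the sum of the circuits has a circuit cover.
-/

namespace Pool.Agent.Results.MP_20b97f_co.ConstantMinusCircuits

open Finset
open Pool.Agent.H126R2.CDC (MGraph)

/-- Let `G` be a finite bridgeless graph (loops and parallel edges allowed), `C i` finitely many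
circuits of `G`, `n i` natural numbers and `B` an even number with
`B ≥ ∑ i, 2 n i + 2 [n i is odd]`.  Let `D` be a family of circuits.  Then the weighting
`B - ∑ i, n i [e ∈ C i] + (number of the members of D that contain e)` has a circuit cover. -/
theorem result {V E : Type} [Fintype V] [DecidableEq V] [Fintype E] [DecidableEq E]
    (G : MGraph V E) (hG : G.Bridgeless) {ι : Type} [Fintype ι] (C : ι → Finset E)
    (hC : ∀ i, G.IsCircuit (C i)) (n : ι → ℕ) (B : ℕ) (hB : Even B)
    (hnB : ∑ i, (2 * n i + if Even (n i) then 0 else 2) ≤ B)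
    (D : Multiset (Finset E)) (hD : ∀ X ∈ D, G.IsCircuit X) :
    ∃ F : Multiset (Finset E), (∀ X ∈ F, G.IsCircuit X) ∧
      ∀ e, F.countP (fun X => e ∈ X) + (∑ i, if e ∈ C i then n i else 0) =
        B + D.countP (fun X => e ∈ X) := by
  classical
  have key : ∀ i, ∃ F : Multiset (Finset E), (∀ X ∈ F, G.IsCircuit X) ∧
      ∀ e, F.countP (fun X => e ∈ X) =
        if e ∈ C i then (n i + if Even (n i) then 0 else 2)
        else (2 * n i + if Even (n i) then 0 else 2) := by
    intro i
    apply Pool.Agent.W831.HI.two_valued G hG (C i) (hC i)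
    · by_cases h : Even (n i)
      · rw [if_pos h, add_zero]; exact even_two_mul _
      · rw [if_neg h]; exact ⟨n i + 1, by ring⟩
    · split_ifs <;> omega
    · intro h
      by_cases h' : Even (n i)
      · rw [if_pos h', add_zero]; exact h'
      · exfalso
        rw [if_neg h'] at h
        omega
  choose F0 hF0 hF0' using key
  obtain ⟨F2, hF2, hF2'⟩ := G.exists_cdc hG
  have heven : Even (∑ i, (2 * n i + if Even (n i) then 0 else 2)) := by
    apply Finset.even_sum
    intro i _
    by_cases h : Even (n i)
    · rw [if_pos h, add_zero]; exact even_two_mul _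
    · rw [if_neg h]; exact ⟨n i + 1, by ring⟩
  obtain ⟨s, hs⟩ : ∃ s, B = (∑ i, (2 * n i + if Even (n i) then 0 else 2)) + 2 * s := by
    obtain ⟨x, hx⟩ := hB
    obtain ⟨y, hy⟩ := heven
    exact ⟨x - y, by omega⟩
  refine ⟨(∑ i, F0 i) + s • F2 + D, ?_, fun e => ?_⟩
  · intro X hX
    rw [Multiset.mem_add, Multiset.mem_add] at hX
    rcases hX with (hX | hX) | hX
    · rw [Multiset.mem_sum] at hX
      obtain ⟨i, _, hX⟩ := hX
      exact hF0 i X hX
    · exact hF2 X (Multiset.mem_of_mem_nsmul hX)
    · exact hD X hX
  · rw [Multiset.countP_add, Multiset.countP_add, Multiset.countP_nsmul, hF2' e,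
      Pool.Agent.W831.HI.countP_sum, hs]
    have h1 : ∑ i, (F0 i).countP (fun X => e ∈ X) + (∑ i, if e ∈ C i then n i else 0) =
        ∑ i, (2 * n i + if Even (n i) then 0 else 2) := by
      rw [← Finset.sum_add_distrib]
      apply Finset.sum_congr rfl
      intro i _
      rw [hF0' i e]
      split_ifs <;> ring
    omega

end Pool.Agent.Results.MP_20b97f_co.ConstantMinusCircuits
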