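import Pool.Agent.H281G.Forest

/-!
# MP_20b97f_co: even weights which are constant on a circuit that meets all circuits

Let `C` be a circuit of a finite multigraph `G` and `p` a weighting of the edges with the constant
value `c` on `C` and even values off `C`.

* If `C` has a vertex in common with every circuit of `G` (that is, the graph without the vertices
  of `C` is a forest) and no edge is heavier than `2 c`, then `(G, p)` has a circuit cover if and
  only if `p` lies in the cone of the circuits. The bound on `p` is automatic if every edge has an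
  end on `C` and the vertices of `C` have degree at most three in `G`.
* If `p` is twice the sum of `c` sets off `C`, each of which is the set of edges off `C` of the union
  of two even subgraphs, then `(G, p)` has a circuit cover.

Proof of the second statement: for two even subgraphs `A`, `B` and a circuit `C` the theorem
`four_of_flows` of the starting library gives circuits that cover the edges of `C` once and the other
edges of `A` and `B` twice. For the first statement one needs vectors `φ e`, `e` off `C`, in `K ^ c`,
`K` the field with four elements, with exactly `p e / 2` nonzero coordinates and with Kirchhoff's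
law at the vertices off `C`; they are built vertex by vertex.
-/

set_option autoImplicit false
set_option linter.unusedSectionVars false

open Finset

namespace Pool.Agent.Results.MP_20b97f_co.ForestOffCircuit

open Pool.Agent.Helper347.Sab

variable {V E : Type} [Fintype V] [DecidableEq V] [Fintype E] [DecidableEq E]

/-- `(G, p)` has a circuit cover: some circuits, with multiplicities, cover every edge `e` exactly
`p e` times. -/
def HasCircuitCover (G : MGraph V E) (p : E → ℕ) : Prop :=
  ∃ F : Multiset (Finset E), (∀ X ∈ F, IsCircuit G X) ∧ ∀ e, F.countP (fun X => e ∈ X) = p e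

/-- `p` is a nonnegative real combination of the incidence vectors of the circuits. -/
def InCone (G : MGraph V E) (p : E → ℕ) : Prop :=
  ∃ c : Finset E → ℝ, (∀ D, 0 ≤ c D) ∧ (∀ D, ¬ IsCircuit G D → c D = 0) ∧
    ∀ e, (p e : ℝ) = ∑ D : Finset E, if e ∈ D then c D else 0

/-- The vertex `v` lies on the subgraph with edge set `C`. -/
def On (G : MGraph V E) (C : Finset E) (v : V) : Prop := dg G C v ≠ 0

theorem cone_of_cover (G : MGraph V E) (p : E → ℕ) (h : HasCircuitCover G p) : InCone G p := by
  classical
  obtain ⟨F, h1, h2⟩ := h
  refine ⟨fun D => F.count D, fun D => Nat.cast_nonneg _, fun D hD => ?_, fun e => ?_⟩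
  · rw [Nat.cast_eq_zero, Multiset.count_eq_zero]
    exact fun h => hD (h1 D h)
  · rw [← h2 e, Multiset.countP_eq_card_filter,
      ← Multiset.sum_count_eq_card (s := univ) (fun a _ => mem_univ a), Nat.cast_sum]
    refine sum_congr rfl fun D _ => ?_
    rw [Multiset.count_filter]
    by_cases h : e ∈ D
    · rw [if_pos h, if_pos h]
    · rw [if_neg h, if_neg h, Nat.cast_zero]

theorem vertex_of_cone (G : MGraph V E) (p : E → ℕ) (h : InCone G p) (v : V) (e : E)
    (he : v ∈ G.ends e) : 2 * p e ≤ ∑ f ∈ univ.filter (fun f => v ∈ G.ends f), p f := by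
  classical
  obtain ⟨c, h1, h2, h3⟩ := h
  have h4 : ((∑ f ∈ univ.filter (fun f => v ∈ G.ends f), p f : ℕ) : ℝ) =
      ∑ D : Finset E, c D * (dg G D v : ℝ) := by
    rw [Nat.cast_sum]
    have h5 : ∀ f ∈ univ.filter (fun f => v ∈ G.ends f), (p f : ℝ) =
        ∑ D : Finset E, if f ∈ D then c D else 0 := fun f _ => h3 f
    rw [sum_congr rfl h5, sum_comm]
    refine sum_congr rfl fun D _ => ?_
    rw [← sum_filter, sum_const, nsmul_eq_mul, mul_comm]
    congr 2
    unfold dg
    congr 1
    ext f
    simp [and_comm]
  have h6 : (2 * (p e : ℝ)) ≤ ∑ D : Finset E, c D * (dg G D v : ℝ) := by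
    rw [h3 e, mul_sum]
    refine sum_le_sum fun D _ => ?_
    by_cases hD : e ∈ D
    · rw [if_pos hD]
      by_cases hcirc : IsCircuit G D
      · have h7 : dg G D v = 2 := (hcirc.2.1 v).resolve_left (by
          have := dg_pos_of_mem (G := G) hD he
          omega)
        rw [h7]
        push_cast
        linarith
      · rw [h2 D hcirc]; simp
    · rw [if_neg hD, mul_zero]
      exact mul_nonneg (h1 D) (Nat.cast_nonneg _)
  rw [← h4] at h6
  exact_mod_cast h6

theorem bound_of_dominating (G : MGraph V E) (C : Finset E) (hC : IsCircuit G C) (p : E → ℕ)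
    (c : ℕ) (hc : ∀ e ∈ C, p e = c) (hdom : ∀ e, ∃ v ∈ G.ends e, On G C v)
    (hdeg : ∀ v, On G C v → dg G univ v ≤ 3) (hcone : InCone G p) (e : E) : p e ≤ 2 * c := by
  classical
  by_cases heC : e ∈ C
  · rw [hc e heC]; omega
  · obtain ⟨v, hv, hon⟩ := hdom e
    have h1 := vertex_of_cone G p hcone v e hv
    have h2 : dg G C v = 2 := (hC.2.1 v).resolve_left hon
    have h3 := hdeg v hon
    have h4 : (univ.filter fun f => v ∈ G.ends f) = insert e (C.filter fun f => v ∈ G.ends f) := by
      symm
      refine eq_of_subset_of_card_le ?_ ?_
      · intro f hf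
        rw [mem_insert, mem_filter] at hf
        rw [mem_filter]
        rcases hf with rfl | hf
        · exact ⟨mem_univ _, hv⟩
        · exact ⟨mem_univ _, hf.2⟩
      · rw [card_insert_of_notMem (fun h => heC (mem_filter.1 h).1)]
        unfold dg at h2 h3
        omega
    rw [h4, sum_insert (fun h => heC (mem_filter.1 h).1)] at h1
    have h5 : ∑ f ∈ C.filter (fun f => v ∈ G.ends f), p f = 2 * c := by
      rw [sum_congr rfl fun f hf => hc f (mem_filter.1 hf).1, sum_const, smul_eq_mul]
      unfold dg at h2
      rw [h2]
    omega

/-- Let `C` be a circuit of `G` and `p` a weighting with the constant value `c` on `C` and even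
values off `C`.

1. If `C` meets all circuits of `G` and `p ≤ 2 c`, or if every edge has an end on `C` and the vertices
of `C` have degree at most three, then `(G, p)` has a circuit cover if and only if `p` lies in the
cone of the circuits.

2. If there are even subgraphs `A 1, ..., A c`, `B 1, ..., B c` such that `p e = 2 k` for every edge
`e` off `C`, where `k` is the number of the indices `j` with `e` in `A j` or `B j`, then `(G, p)` has
a circuit cover. -/
theorem result {V E : Type} [Fintype V] [DecidableEq V] [Fintype E] [DecidableEq E]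
    (G : MGraph V E) (C : Finset E) (hC : IsCircuit G C) (p : E → ℕ) (c : ℕ)
    (hc : ∀ e ∈ C, p e = c) (hev : ∀ e, e ∉ C → Even (p e)) :
    (((∀ D, IsCircuit G D → ∃ v, On G D v ∧ On G C v) ∧ (∀ e, p e ≤ 2 * c)) ∨
      ((∀ e, ∃ v ∈ G.ends e, On G C v) ∧ ∀ v, On G C v → dg G univ v ≤ 3) →
      (HasCircuitCover G p ↔ InCone G p)) ∧
    ((∃ A B : Fin c → Finset E, (∀ j v, Even (dg G (A j) v)) ∧ (∀ j v, Even (dg G (B j) v)) ∧
      ∀ e, e ∉ C → p e = 2 * (univ.filter fun j => e ∈ A j ∨ e ∈ B j).card) →
      HasCircuitCover G p) := by
  constructor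
  · intro h
    refine ⟨cone_of_cover G p, fun hcone => ?_⟩
    have hmeet : ∀ D, IsCircuit G D → ∃ v, dg G D v ≠ 0 ∧ dg G C v ≠ 0 := by
      rcases h with h | h
      · exact h.1
      · intro D hD
        obtain ⟨e, he⟩ := hD.1
        obtain ⟨v, hv, hon⟩ := h.1 e
        refine ⟨v, ?_, hon⟩
        have := dg_pos_of_mem (G := G) he hv
        omega
    have hle : ∀ e, p e ≤ 2 * c := by
      rcases h with h | h
      · exact h.2
      · exact bound_of_dominating G C hC p c hc h.1 h.2 hcone
    exact Pool.Agent.H281G.forest_cover G C hC hmeet c p hc hev (fun e _ => hle e)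
      (fun v _ e he => vertex_of_cone G p hcone v e he)
  · rintro ⟨A, B, hA, hB, h⟩
    exact Pool.Agent.H281G.levels G C hC c A B hA hB p hc h

end Pool.Agent.Results.MP_20b97f_co.ForestOffCircuit
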