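import Pool.Agent.V1121.FC.Cone

/-!
# MP_20b97f_co: circuit covers of Cayley graphs with translation invariant weights

For a finite Cayley graph and a translation invariant weight `p` with values in the nonnegative
integers (even or not), `p` has a circuit cover if and only if `p` lies in the cone and in the
lattice of the circuits.

Proof. The weight is a symmetric function on the set of generators. The following weights have
circuit covers: `1` on a generator which is not an involution (and its inverse); `1` on each of two
involutions; `2` on an involution `t` and `1` on a generator `x` which is not one: if `t` is not in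
`⟨t x⟩`, take the closed walks with pattern `t, x`, otherwise `t` and `x` commute, and the
quadrangles do. Every invariant weight with even total at each vertex in which no edge weighs more
than the other edges at a vertex together is a sum of such weights.
-/

set_option autoImplicit false

open scoped Classical

namespace Pool.Agent.Results.MP_20b97f_co.InvariantWeights

/-- Let `G` be a graph whose vertex set is a finite group `Γ` and which is invariant under all left
translations (a Cayley graph), and let `p` be a nonnegative integer weight on its edges, invariant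
under all left translations. Then `p` is a nonnegative integer combination of incidence vectors of
circuits if and only if it is a nonnegative real combination and an integer combination of them. -/
theorem result (Γ : Type) [Group Γ] [Fintype Γ] (G : SimpleGraph Γ) (p : G.edgeSet → ℤ)
    (hp : ∀ e, 0 ≤ p e)
    (hG : ∀ g x y : Γ, G.Adj x y → G.Adj (g * x) (g * y))
    (hinv : ∀ g x y : Γ, ∀ h : G.Adj x y, p ⟨s(g * x, g * y), hG g x y h⟩ = p ⟨s(x, y), h⟩) :
    p ∈ AddSubmonoid.closure
          {x : G.edgeSet → ℤ | ∃ v : Γ, ∃ c : G.Walk v v, c.IsCycle ∧
            ∀ e : G.edgeSet, ((e : Sym2 Γ) ∈ c.edges → x e = 1) ∧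
              ((e : Sym2 Γ) ∉ c.edges → x e = 0)} ↔
        ((∃ (s : Finset (G.edgeSet → ℤ)) (w : (G.edgeSet → ℤ) → ℝ),
            (∀ x ∈ s, (∃ v : Γ, ∃ c : G.Walk v v, c.IsCycle ∧
              ∀ e : G.edgeSet, ((e : Sym2 Γ) ∈ c.edges → x e = 1) ∧
                ((e : Sym2 Γ) ∉ c.edges → x e = 0)) ∧ 0 ≤ w x) ∧
            ∀ e, (p e : ℝ) = ∑ x ∈ s, w x * (x e : ℝ)) ∧
          p ∈ AddSubgroup.closure
            {x : G.edgeSet → ℤ | ∃ v : Γ, ∃ c : G.Walk v v, c.IsCycle ∧
              ∀ e : G.edgeSet, ((e : Sym2 Γ) ∈ c.edges → x e = 1) ∧
                ((e : Sym2 Γ) ∉ c.edges → x e = 0)}) := by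
  refine ⟨fun h => Pool.Agent.V1121.FC.cone_of_intcone h, ?_⟩
  rintro ⟨⟨s, w, hs, hw⟩, hl⟩
  exact Pool.Agent.V1121.FC.final_cone p hp hG hinv
      (fun v y h => Pool.Agent.V1121.FC.le_of_cone s w hs hw h)
      (fun v => Pool.Agent.V1121.FC.even_of_lattice hl v)

end Pool.Agent.Results.MP_20b97f_co.InvariantWeights
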