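import Pool.Agent.V11198.SixteenY
import Pool.Agent.Results.MP_0c3aa4_co.FewOddParts

/-!
# MP_20b97f_co: weightings which are constant off a 2-regular subgraph and on each of its circuits

Let `S` be a 2-regular subgraph of a cubic graph `G` and let `p` be a weighting which lies in the
cone and in the lattice of the circuits, is constant off `S`, and is constant on every circuit of
`S`.  Then `p = 2k` off `S` and `p ≥ k` on `S`.  If `G` has five even subgraphs, one of them `S`,
which cover every edge twice, then `p` is a sum of circuits: `k` times the circuits of the other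
four even subgraphs, and `p(C) - k` times every circuit `C` of `S`.
-/

set_option autoImplicit false

open Finset

namespace Pool.Agent.Results.MP_20b97f_co.TwoRegularConstant

open Pool.Agent.Helper347.Sab
open Pool.Agent.Results.MP_0c3aa4_co.ThroughDominating (TwoRegular)
open Pool.Agent.Results.MP_0c3aa4_co.FewOddParts (Linked parts NoThreeCut)

variable {V E : Type} [Fintype V] [DecidableEq V] [Fintype E] [DecidableEq E]

/-- The weighting `p` has the same value on all edges outside `S`, and the same value on any two
edges of `S` with a common end (it is constant on every circuit of `S`). -/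
def ConstantAlong (G : MGraph V E) (S : Finset E) (p : E → ℕ) : Prop :=
  (∀ e f, e ∉ S → f ∉ S → p e = p f) ∧
    ∀ v, ∀ e ∈ S, ∀ f ∈ S, v ∈ G.ends e → v ∈ G.ends f → p e = p f

/-- `p` is in `Cone(C)`: a nonnegative real combination of circuits. -/
def InCone (G : MGraph V E) (p : E → ℕ) : Prop :=
  ∃ c : Finset E → ℝ, (∀ X, 0 ≤ c X) ∧ (∀ X, ¬ IsCircuit G X → c X = 0) ∧
    ∀ e, (p e : ℝ) = ∑ X : Finset E, if e ∈ X then c X else 0

/-- `p` is in `Lat(C)`: an integer combination of circuits. -/
def InLattice (G : MGraph V E) (p : E → ℕ) : Prop :=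
  ∃ z : Finset E → ℤ, (∀ X, ¬ IsCircuit G X → z X = 0) ∧
    ∀ e, (p e : ℤ) = ∑ X : Finset E, if e ∈ X then z X else 0

/-- `(G, p)` has a circuit cover. -/
def HasCover (G : MGraph V E) (p : E → ℕ) : Prop :=
  ∃ F : Multiset (Finset E), (∀ X ∈ F, IsCircuit G X) ∧ ∀ e, F.countP (fun X => e ∈ X) = p e

/-- For every component of `G - E(S)` there are two even subgraphs `A`, `B` of `G` whose edges
outside `S` are in this component and which cover all edges of the component (the component has a
nowhere-zero 4-flow after the contraction of the circuits of `S`). -/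
def FlowsOnComponents (G : MGraph V E) (S : Finset E) : Prop :=
  ∀ v : V, ∃ A B : Finset E, (∀ w, Even (dg G A w)) ∧ (∀ w, Even (dg G B w)) ∧
    (∀ f, f ∉ S → (f ∈ A ∨ f ∈ B) → ∀ u ∈ G.ends f, Linked G (univ \ S) v u) ∧
    (∀ f, f ∉ S → (∀ u ∈ G.ends f, Linked G (univ \ S) v u) → f ∈ A ∨ f ∈ B)

/-- `G - E(S)` is connected, and one of these conditions holds: there are two disjoint sets `T`, `U`
of edges such that `S ∪ T` and `S ∪ U` are connected and spanning; the number of the vertices off
`S` plus the number of the circuits of `S` is at most nine; `S` is not empty, no edge cut of `G`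
with three edges has at least two vertices on both sides, and the number of the vertices off `S`
plus the number of the odd circuits of `S` is at most sixteen. -/
def ConnectedOff (G : MGraph V E) (S : Finset E) : Prop :=
  (∀ a b, Linked G (univ \ S) a b) ∧
    ((∃ T U : Finset E, Disjoint T U ∧ (∀ a b, Linked G (S ∪ T) a b) ∧
        ∀ a b, Linked G (S ∪ U) a b) ∨
      (parts G S).ncard ≤ 9 ∨
      (S.Nonempty ∧ NoThreeCut G ∧ {X | X ∈ parts G S ∧ Odd X.ncard}.ncard ≤ 16))

theorem of_five (G : MGraph V E) (hG : IsCubic G) (S : Finset E) (hS : TwoRegular G S)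
    (h : ∃ D : Fin 5 → Finset E, (∀ i, Ev G (D i)) ∧ D 0 = S ∧
      ∀ e, (univ.filter fun i => e ∈ D i).card = 2) (x : E → ℕ)
    (hadm : ∀ v, Even (∑ e ∈ univ.filter (fun e => v ∈ G.ends e), x e) ∧
      ∀ e, v ∈ G.ends e → 2 * x e ≤ ∑ f ∈ univ.filter (fun f => v ∈ G.ends f), x f)
    (hx : ConstantAlong G S x) :
    ∃ F : Multiset (Finset E), (∀ X ∈ F, IsCircuit G X) ∧
      ∀ e, F.countP (fun X => e ∈ X) = x e := by
  classical
  -- the edges at a vertex
  have hstar : ∀ v, (univ.filter fun e => v ∈ G.ends e).card = 3 := fun v => hG v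
  have hsplit : ∀ v, ((univ.filter fun e => v ∈ G.ends e).filter fun e => e ∈ S).card =
      dg G S v := by
    intro v
    unfold dg
    congr 1
    ext e
    simp only [mem_filter, mem_univ, true_and]
    tauto
  have hcard : ∀ v, (S.filter fun e => v ∈ G.ends e).card +
      ((univ \ S).filter fun e => v ∈ G.ends e).card = 3 := by
    intro v
    have h1 := dg_sdiff (G := G) (X := univ) (Y := S) (subset_univ _) v
    have h2 := hG v
    unfold dg at h1 h2
    omega
  have hsum : ∀ v, ∑ e ∈ univ.filter (fun e => v ∈ G.ends e), x e =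
      ∑ e ∈ S.filter (fun e => v ∈ G.ends e), x e +
        ∑ e ∈ (univ \ S).filter (fun e => v ∈ G.ends e), x e := by
    intro v
    rw [← sum_union]
    · apply sum_congr _ fun _ _ => rfl
      ext e
      simp only [mem_filter, mem_univ, true_and, mem_union, mem_sdiff]
      tauto
    · rw [Finset.disjoint_left]
      intro e h1 h2
      exact (mem_sdiff.1 (mem_filter.1 h2).1).2 (mem_filter.1 h1).1
  -- the value at a vertex
  have hval : ∀ v, ∀ a b : ℕ, (∀ e ∈ S, v ∈ G.ends e → x e = a) → (∀ e, e ∉ S → x e = b) →
      ∑ e ∈ univ.filter (fun e => v ∈ G.ends e), x e =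
        (S.filter fun e => v ∈ G.ends e).card * a +
        ((univ \ S).filter fun e => v ∈ G.ends e).card * b := by
    intro v a b ha hb
    rw [hsum v]
    congr 1
    · rw [sum_congr rfl fun e he => ha e (mem_filter.1 he).1 (mem_filter.1 he).2, sum_const,
        smul_eq_mul]
    · rw [sum_congr rfl fun e he => hb e (mem_sdiff.1 (mem_filter.1 he).1).2, sum_const,
        smul_eq_mul]
  by_cases hne : ∃ e0, e0 ∉ S
  · obtain ⟨e0, he0⟩ := hne
    have hb : ∀ e, e ∉ S → x e = x e0 := fun e he => hx.1 e e0 he he0
    -- the value off `S` is even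
    have heven : Even (x e0) := by
      obtain ⟨a, b, _, hends⟩ := exists_ends G e0
      have hv : a ∈ G.ends e0 := by rw [hends]; exact Sym2.mem_mk_left _ _
      have h1 := (hadm a).1
      rcases hS a with h0 | h2
      · rw [hval a 0 (x e0) (fun e he hve => absurd h0 (by
          have := dg_pos_of_mem (G := G) he hve; omega)) hb] at h1
        have h3 := hcard a
        unfold dg at h0
        rw [h0] at h3 h1
        have h4 : ((univ \ S).filter fun e => a ∈ G.ends e).card = 3 := by omega
        rw [h4] at h1
        have h5 : 0 * 0 + 3 * x e0 = x e0 + 2 * x e0 := by ring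
        rw [h5, Nat.even_add] at h1
        exact h1.2 ⟨x e0, by ring⟩
      · have h2' : (S.filter fun e => a ∈ G.ends e).card = 2 := h2
        obtain ⟨f, hf⟩ : (S.filter fun e => a ∈ G.ends e).Nonempty := card_pos.1 (by omega)
        rw [hval a (x f) (x e0) (fun e he hve => hx.2 a e he f (mem_filter.1 hf).1 hve
          (mem_filter.1 hf).2) hb, h2'] at h1
        have h3 := hcard a
        rw [h2'] at h3
        have h4 : ((univ \ S).filter fun e => a ∈ G.ends e).card = 1 := by omega
        rw [h4, one_mul, Nat.even_add] at h1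
        exact h1.1 ⟨x f, by ring⟩
    obtain ⟨k, hk⟩ := heven
    apply Pool.Agent.V11198.Six.weights_of_five G S hS h x k
    · intro e he
      rw [hb e he]; omega
    · intro e he
      obtain ⟨a, b, _, hends⟩ := exists_ends G e
      have hv : a ∈ G.ends e := by rw [hends]; exact Sym2.mem_mk_left _ _
      have hpos := dg_pos_of_mem (G := G) he hv
      have h2 : (S.filter fun e => a ∈ G.ends e).card = 2 := (hS a).resolve_left (by omega)
      have h3 := hcard a
      rw [h2] at h3
      have h4 : ((univ \ S).filter fun e => a ∈ G.ends e).card = 1 := by omega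
      obtain ⟨f, hf⟩ : ((univ \ S).filter fun e => a ∈ G.ends e).Nonempty :=
        card_pos.1 (by omega)
      rw [mem_filter, mem_sdiff] at hf
      have h5 := (hadm a).2 f hf.2
      rw [hval a (x e) (x e0) (fun g hg hvg => hx.2 a g hg e he hvg hv) hb, h2, h4,
        hb f hf.1.2] at h5
      omega
    · exact hx.2
  · apply Pool.Agent.V11198.Six.weights_of_five G S hS h x 0
    · intro e he
      exact absurd ⟨e, he⟩ hne
    · intro e _
      exact Nat.zero_le _
    · exact hx.2

/-- Let `G` be a cubic graph every edge of which lies in a circuit, let `S` be a 2-regular subgraph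
of `G` for which `FlowsOnComponents` or `ConnectedOff` holds, and let `p` be a nonnegative integer
weighting which is constant off `S` and constant on every circuit of `S` (the values on different
circuits of `S` may differ). Then `(G, p)` has a circuit cover if and only if `p` is in the cone and
in the lattice of the circuits of `G`. -/
theorem result {V E : Type} [Fintype V] [DecidableEq V] [Fintype E] [DecidableEq E]
    (G : MGraph V E) (hG : IsCubic G) (hb : ∀ e, ∃ D, IsCircuit G D ∧ e ∈ D) (S : Finset E)
    (hS : TwoRegular G S) (h : FlowsOnComponents G S ∨ ConnectedOff G S)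
    (p : E → ℕ) (hp : ConstantAlong G S p) :
    HasCover G p ↔ InCone G p ∧ InLattice G p := by
  have hfive : ∃ D : Fin 5 → Finset E, (∀ i, Ev G (D i)) ∧ D 0 = S ∧
      ∀ e, (univ.filter fun i => e ∈ D i).card = 2 := by
    rcases h with h | ⟨hconn, h⟩
    · apply Pool.Agent.V11198.Six.five_of_four G S (fun v => by
        rcases hS v with h | h <;> rw [h] <;> decide)
      obtain ⟨X, h1, h2, h3, _⟩ := Pool.Agent.W614.SC.four_of_flows G S ∅ hS
        (fun v => by
          obtain ⟨A, B, hA, hB, h4, h5⟩ := h v
          exact ⟨A, B, hA, hB, h4, fun f hf _ hu => h5 f hf hu⟩)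
      exact ⟨X, h1, h2, fun e he => h3 e he (notMem_empty e)⟩
    · obtain ⟨_, h2, h3, h4⟩ :=
        Pool.Agent.Results.MP_0c3aa4_co.FewOddParts.result G hG hb S hS hconn
      rcases h with h | h | ⟨ha, hb', hc⟩
      · exact (h2 h).2
      · exact (h3 h).2
      · exact (h4 ha hb' hc).2
  constructor
  · rintro ⟨F, hF, hF'⟩
    exact Pool.Agent.V11198.Six.cone_of_cover G p F hF hF'
  · rintro ⟨hc, hz⟩
    exact of_five G hG S hS hfive p (Pool.Agent.V11198.Six.adm_of_cone G p hc hz) hp

end Pool.Agent.Results.MP_20b97f_co.TwoRegularConstant
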